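import Pool.Agent.Y744.LV.Nil4b

/-!
# Rings of nil index four equal to their derived Lie ring: the theorem
-/

namespace Pool.Agent.Y744.LV

open Pool.Agent.TH537.LV

variable {R : Type*} [NonUnitalRing R]

/-- A two-sided ideal of a ring `R = [R,R]` that contains all cubes is everything. -/
lemma cube_ideal (hR : AddSubgroup.closure {x : R | ∃ a b : R, x = a * b - b * a} = ⊤)
    (P : AddSubgroup R) (hl : ∀ a : R, ∀ x ∈ P, a * x ∈ P) (hr : ∀ a : R, ∀ x ∈ P, x * a ∈ P)
    (hs : ∀ a : R, a * a * a ∈ P) (x : R) : x ∈ P := by
  let K : TwoSidedIdeal R := TwoSidedIdeal.mk' (P : Set R) P.zero_mem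
    (fun hx hy => P.add_mem hx hy) (fun hx => P.neg_mem hx)
    (fun {x y} hy => hl x y hy) (fun {x y} hx => hr y x hx)
  have hK : ∀ x, x ∈ K ↔ x ∈ P := fun x => TwoSidedIdeal.mem_mk' _ _ _ _ _ _ _
  have hq : ∀ x : R, ((x : R) : K.ringCon.Quotient) = 0 ↔ x ∈ P := by
    intro x
    rw [← hK, TwoSidedIdeal.mem_iff]
    exact (RingCon.eq K.ringCon).trans Iff.rfl
  have hRq : AddSubgroup.closure {x : K.ringCon.Quotient | ∃ a b : K.ringCon.Quotient,
      x = a * b - b * a} = ⊤ := by
    rw [eq_top_iff]
    intro y _
    obtain ⟨x, rfl⟩ := Quotient.exists_rep y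
    let W : AddSubgroup K.ringCon.Quotient := AddSubgroup.closure
        {x : K.ringCon.Quotient | ∃ a b : K.ringCon.Quotient, x = a * b - b * a}
    let π : R →+ K.ringCon.Quotient := AddMonoidHom.mk' (fun x => (x : K.ringCon.Quotient))
      (fun a b => RingCon.coe_add K.ringCon a b)
    have this : ∀ x : R, ((x : R) : K.ringCon.Quotient) ∈ W := by
      intro x
      have hx : x ∈ W.comap π := by
        refine ind_id hR _ (fun a b => ?_) x
        change ((a * b - b * a : R) : K.ringCon.Quotient) ∈ W
        rw [RingCon.coe_sub, RingCon.coe_mul, RingCon.coe_mul]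
        exact AddSubgroup.subset_closure ⟨_, _, rfl⟩
      exact hx
    exact this x
  have h0 := zero_of_cube hRq (by
    intro y
    obtain ⟨x, rfl⟩ := Quotient.exists_rep y
    change ((x : R) : K.ringCon.Quotient) * (x : K.ringCon.Quotient) * (x : K.ringCon.Quotient) = 0
    rw [← RingCon.coe_mul, ← RingCon.coe_mul, hq]
    exact hs x)
  exact (hq x).1 (h0 _)

/-- A ring `R = [R,R] = 2R` in which all fourth powers are zero is zero. -/
theorem zero_of_four (hR : AddSubgroup.closure {x : R | ∃ a b : R, x = a * b - b * a} = ⊤)
    (h : ∀ x : R, x * x * x * x = 0) (h2 : ∀ x : R, ∃ y : R, x = (2 : ℤ) • y) (x : R) :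
    x = 0 := by
  have hcc := cube_cube h h2 hR
  let P1 : AddSubgroup R :=
    { carrier := {a | ∀ r c v : R, a * r * (c * c * c) * v = 0}
      zero_mem' := by intro r c v; simp
      add_mem' := by
        intro a b ha hb r c v
        rw [add_mul, add_mul, add_mul, ha r c v, hb r c v, add_zero]
      neg_mem' := by
        intro a ha r c v
        rw [neg_mul, neg_mul, neg_mul, ha r c v, neg_zero] }
  have h5 : ∀ a r c v : R, a * r * (c * c * c) * v = 0 := by
    intro a
    have : a ∈ P1 := by
      apply cube_ideal hR P1
      · intro u x hx r c v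
        have e : u * x * r * (c * c * c) * v = u * (x * r * (c * c * c) * v) := by
          simp only [mul_assoc]
        rw [e, hx r c v, mul_zero]
      · intro u x hx r c v
        have e : x * u * r * (c * c * c) * v = x * (u * r) * (c * c * c) * v := by
          simp only [mul_assoc]
        rw [e, hx (u * r) c v]
      · intro u r c v
        exact hcc u r c v
    exact this
  let P2 : AddSubgroup R :=
    { carrier := {c | ∀ a r v : R, a * r * c * v = 0}
      zero_mem' := by intro r c v; simp
      add_mem' := by
        intro a b ha hb r c v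
        rw [mul_add, add_mul, ha r c v, hb r c v, add_zero]
      neg_mem' := by
        intro a ha r c v
        rw [mul_neg, neg_mul, ha r c v, neg_zero] }
  have h6 : ∀ c a r v : R, a * r * c * v = 0 := by
    intro c
    have : c ∈ P2 := by
      apply cube_ideal hR P2
      · intro u x hx a r v
        have e : a * r * (u * x) * v = a * (r * u) * x * v := by
          simp only [mul_assoc]
        rw [e, hx]
      · intro u x hx a r v
        have e : a * r * (x * u) * v = a * r * x * (u * v) := by
          simp only [mul_assoc]
        rw [e, hx]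
      · intro u a r v
        exact h5 a r u v
    exact this
  have h7 : ∀ x v : R, x * v = 0 := by
    intro x v
    let P3 : AddSubgroup R :=
      { carrier := {c | c * v = 0}
        zero_mem' := by simp
        add_mem' := by
          intro a b ha hb
          change (a + b) * v = 0
          rw [add_mul, ha, hb, add_zero]
        neg_mem' := by
          intro a ha
          change (-a) * v = 0
          rw [neg_mul, ha, neg_zero] }
    have : x ∈ P3 := by
      apply ind_three hR
      intro a b c
      exact h6 c a b v
    exact this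
  have h8 : x ∈ (⊥ : AddSubgroup R) := by
    apply ind_id hR
    intro a b
    rw [AddSubgroup.mem_bot, h7, h7, sub_zero]
  exact h8

end Pool.Agent.Y744.LV
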