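import Pool.Agent.Y744.LV.Mat
import Pool.Agent.Y744.LV.Nil4c

/-!
# Rings equal to their derived Lie ring which embed into a matrix ring
-/

namespace Pool.Agent.Y744.LV

open Polynomial Pool.Agent.TH537.LV

universe u v

variable {n : ℕ} {C : Type u} [CommRing C] {R : Type v} [NonUnitalRing R]

/-- The image of a ring `R = [R,R]`. -/
lemma good_range (hR : AddSubgroup.closure {x : R | ∃ a b : R, x = a * b - b * a} = ⊤)
    (f : R →ₙ+* Matrix (Fin n) (Fin n) C) : Good (f : R →+ Matrix (Fin n) (Fin n) C).range := by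
  constructor
  · rintro _ ⟨a, rfl⟩ _ ⟨b, rfl⟩
    exact ⟨a * b, map_mul f a b⟩
  · rintro _ ⟨x, rfl⟩
    have h : x ∈ (AddSubgroup.closure {z | ∃ a ∈ (f : R →+ Matrix (Fin n) (Fin n) C).range,
        ∃ b ∈ (f : R →+ Matrix (Fin n) (Fin n) C).range, z = a * b - b * a}).comap
          (f : R →+ Matrix (Fin n) (Fin n) C) := by
      refine ind_id hR _ (fun a b => ?_) x
      refine AddSubgroup.subset_closure ⟨f a, ⟨a, rfl⟩, f b, ⟨b, rfl⟩, ?_⟩
      change f (a * b - b * a) = _
      rw [map_sub, map_mul, map_mul]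
    exact h

theorem charpoly_image (hR : AddSubgroup.closure {x : R | ∃ a b : R, x = a * b - b * a} = ⊤)
    (f : R →ₙ+* Matrix (Fin n) (Fin n) C) (x : R) : (f x).charpoly = X ^ n :=
  charpoly_eq (good_range hR f) (f x) ⟨x, rfl⟩

theorem pow_image (hR : AddSubgroup.closure {x : R | ∃ a b : R, x = a * b - b * a} = ⊤)
    (f : R →ₙ+* Matrix (Fin n) (Fin n) C) (x : R) : (f x) ^ n = 0 :=
  pow_eq_zero_of_good (good_range hR f) (f x) ⟨x, rfl⟩

theorem zero_small (hR : AddSubgroup.closure {x : R | ∃ a b : R, x = a * b - b * a} = ⊤)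
    (f : R →ₙ+* Matrix (Fin n) (Fin n) C) (hf : Function.Injective f) (hn : n ≤ 3) (x : R) :
    x = 0 := by
  refine zero_of_cube hR (fun x => hf ?_) x
  have h1 := pow_image hR f x
  rw [map_mul, map_mul, map_zero]
  have h2 : f x * f x * f x = f x ^ 3 := by rw [pow_succ, pow_two]
  rw [h2]
  have h3 : 3 = n + (3 - n) := by omega
  rw [h3, pow_add, h1, zero_mul]

theorem zero_four (hR : AddSubgroup.closure {x : R | ∃ a b : R, x = a * b - b * a} = ⊤)
    (f : R →ₙ+* Matrix (Fin 4) (Fin 4) C) (hf : Function.Injective f)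
    (h2 : ∀ x : R, ∃ y : R, x = (2 : ℤ) • y) (x : R) :
    x = 0 := by
  refine zero_of_four hR (fun x => hf ?_) h2 x
  have h1 := pow_image hR f x
  rw [map_mul, map_mul, map_mul, map_zero]
  have h2 : f x * f x * f x * f x = f x ^ 4 := by rw [pow_succ, pow_succ, pow_two]
  rw [h2, h1]

end Pool.Agent.Y744.LV
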