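import Pool.Agent.Y744.LV.Fin

/-!
# Rings equal to their derived Lie ring which embed into a ring of `5 × 5` matrices
-/

namespace Pool.Agent.Y744.LV

open Polynomial Pool.Agent.TH537.LV

universe u v

variable {n : ℕ} {C : Type u} [CommRing C] {R : Type v} [NonUnitalRing R]

/-- The linearization of `x⁵`. -/
def ge (x y : R) : R := x * x * x * x * y + x * x * x * y * x + x * x * y * x * x
  + x * y * x * x * x + y * x * x * x * x

/-- The coefficient of `X`. -/
noncomputable def co : Matrix (Fin n) (Fin n) C[X] →+ Matrix (Fin n) (Fin n) C :=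
  AddMonoidHom.mk' (fun M => M.map (fun p => p.coeff 1)) (by
    intro a b
    ext i j
    simp)

lemma co_lft (i : ℕ) (s : Matrix (Fin n) (Fin n) C) : co (lft i s) = if i = 1 then s else 0 := by
  ext r t
  change (((X ^ i : C[X]) • s.map Polynomial.C) r t).coeff 1 = _
  rw [Matrix.smul_apply, Matrix.map_apply, smul_eq_mul, mul_comm, coeff_C_mul_X_pow]
  by_cases h : i = 1
  · subst h; simp
  · rw [if_neg h, if_neg (Ne.symm h)]; rfl

lemma ge_matrix {S : AddSubgroup (Matrix (Fin 5) (Fin 5) C)} (h : Good S)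
    (x y : Matrix (Fin 5) (Fin 5) C) (hx : x ∈ S) (hy : y ∈ S) : ge x y = 0 := by
  have h1 := pow_eq_zero_of_good (good_pol h) (lft 0 x + lft 1 y)
    (add_mem (lft_mem 0 hx) (lft_mem 1 hy))
  have h2 := congrArg co h1
  rw [map_zero] at h2
  rw [← h2]
  have e : (lft 0 x + lft 1 y) ^ 5 = (lft 0 x + lft 1 y) * (lft 0 x + lft 1 y)
      * (lft 0 x + lft 1 y) * (lft 0 x + lft 1 y) * (lft 0 x + lft 1 y) := by
    simp only [pow_succ, pow_zero, one_mul]
  rw [e]
  simp only [add_mul, mul_add, lft_mul, map_add, co_lft]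
  norm_num [ge]
  abel

lemma five_identity (x y z : R) : (5 : ℤ) • (x * x * x * x * z * (y * y * y * y)) =
    ge x z * (y * y * y * y) + ge x (z * y) * (y * y * y) + ge x (z * y * y) * (y * y)
      + ge x (z * y * y * y) * y + ge x (z * y * y * y * y)
      - x * x * x * z * ge y x - x * x * z * ge y (x * x) - x * z * ge y (x * x * x)
      - z * ge y (x * x * x * x) := by
  simp only [ge, mul_add, add_mul, mul_assoc]
  abel

/-- A two-sided ideal of a ring `R = [R,R] = 2R` that contains all fourth powers is everything. -/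
lemma fourth_ideal (hR : AddSubgroup.closure {x : R | ∃ a b : R, x = a * b - b * a} = ⊤)
    (h2 : ∀ x : R, ∃ y : R, x = (2 : ℤ) • y)
    (P : AddSubgroup R) (hl : ∀ a : R, ∀ x ∈ P, a * x ∈ P) (hr : ∀ a : R, ∀ x ∈ P, x * a ∈ P)
    (hs : ∀ a : R, a * a * a * a ∈ P) (x : R) : x ∈ P := by
  let K : TwoSidedIdeal R := TwoSidedIdeal.mk' (P : Set R) P.zero_mem
    (fun hx hy => P.add_mem hx hy) (fun hx => P.neg_mem hx)
    (fun {x y} hy => hl x y hy) (fun {x y} hx => hr y x hx)
  have hK : ∀ x, x ∈ K ↔ x ∈ P := fun x => TwoSidedIdeal.mem_mk' _ _ _ _ _ _ _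
  have hq : ∀ x : R, ((x : R) : K.ringCon.Quotient) = 0 ↔ x ∈ P := by
    intro x
    rw [← hK, TwoSidedIdeal.mem_iff]
    exact (RingCon.eq K.ringCon).trans Iff.rfl
  let π : R →+ K.ringCon.Quotient := AddMonoidHom.mk' (fun x => (x : K.ringCon.Quotient))
    (fun a b => RingCon.coe_add K.ringCon a b)
  have hRq : AddSubgroup.closure {x : K.ringCon.Quotient | ∃ a b : K.ringCon.Quotient,
      x = a * b - b * a} = ⊤ := by
    rw [eq_top_iff]
    intro y _
    obtain ⟨x, rfl⟩ := Quotient.exists_rep y
    let W : AddSubgroup K.ringCon.Quotient := AddSubgroup.closure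
        {x : K.ringCon.Quotient | ∃ a b : K.ringCon.Quotient, x = a * b - b * a}
    have this : ∀ x : R, ((x : R) : K.ringCon.Quotient) ∈ W := by
      intro x
      have hx : x ∈ W.comap π := by
        refine ind_id hR _ (fun a b => ?_) x
        change ((a * b - b * a : R) : K.ringCon.Quotient) ∈ W
        rw [RingCon.coe_sub, RingCon.coe_mul, RingCon.coe_mul]
        exact AddSubgroup.subset_closure ⟨_, _, rfl⟩
      exact hx
    exact this x
  have h0 := zero_of_four hRq (by
    intro y
    obtain ⟨x, rfl⟩ := Quotient.exists_rep y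
    change ((x : R) : K.ringCon.Quotient) * (x : K.ringCon.Quotient) * (x : K.ringCon.Quotient)
      * (x : K.ringCon.Quotient) = 0
    rw [← RingCon.coe_mul, ← RingCon.coe_mul, ← RingCon.coe_mul, hq]
    exact hs x) (by
    intro y
    obtain ⟨x, rfl⟩ := Quotient.exists_rep y
    obtain ⟨z, rfl⟩ := h2 x
    exact ⟨π z, map_zsmul π (2 : ℤ) z⟩)
  exact (hq x).1 (h0 _)

theorem zero_five (hR : AddSubgroup.closure {x : R | ∃ a b : R, x = a * b - b * a} = ⊤)
    (f : R →ₙ+* Matrix (Fin 5) (Fin 5) C) (hf : Function.Injective f)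
    (h2 : ∀ x : R, ∃ y : R, x = (2 : ℤ) • y) (h5 : ∀ x : R, ∃ y : R, x = (5 : ℤ) • y) (x : R) :
    x = 0 := by
  have hge : ∀ x y : R, ge x y = 0 := by
    intro x y
    apply hf
    rw [map_zero, ← ge_matrix (good_range hR f) (f x) (f y) ⟨x, rfl⟩ ⟨y, rfl⟩]
    simp only [ge, map_add, map_mul]
  have hcc : ∀ x z y : R, x * x * x * x * z * (y * y * y * y) = 0 := by
    intro x z y
    obtain ⟨z', rfl⟩ := h5 z
    have e := five_identity x y z'
    simp only [hge, zero_mul, mul_zero, add_zero, sub_zero] at e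
    simp only [mul_smul_comm, smul_mul_assoc]
    exact e
  let P1 : AddSubgroup R :=
    { carrier := {a | ∀ r c : R, a * r * (c * c * c * c) = 0}
      zero_mem' := by intro r c; simp
      add_mem' := by
        intro a b ha hb r c
        rw [add_mul, add_mul, ha r c, hb r c, add_zero]
      neg_mem' := by
        intro a ha r c
        rw [neg_mul, neg_mul, ha r c, neg_zero] }
  have h6 : ∀ a r c : R, a * r * (c * c * c * c) = 0 := by
    intro a
    have : a ∈ P1 := by
      apply fourth_ideal hR h2 P1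
      · intro u x hx r c
        rw [mul_assoc, mul_assoc, ← mul_assoc x, hx r c, mul_zero]
      · intro u x hx r c
        rw [mul_assoc x, hx (u * r) c]
      · intro u r c
        exact hcc u r c
    exact this
  let P2 : AddSubgroup R :=
    { carrier := {c | ∀ a r : R, a * r * c = 0}
      zero_mem' := by intro r c; simp
      add_mem' := by
        intro a b ha hb r c
        rw [mul_add, ha r c, hb r c, add_zero]
      neg_mem' := by
        intro a ha r c
        rw [mul_neg, ha r c, neg_zero] }
  have h7 : ∀ a r c : R, a * r * c = 0 := by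
    intro a r c
    have : c ∈ P2 := by
      apply fourth_ideal hR h2 P2
      · intro u x hx a r
        rw [← mul_assoc, mul_assoc a, hx a (r * u)]
      · intro u x hx a r
        rw [← mul_assoc, hx a r, zero_mul]
      · intro u a r
        exact h6 a r u
    exact this a r
  have h8 : x ∈ (⊥ : AddSubgroup R) := by
    apply ind_three hR
    intro a b c
    rw [AddSubgroup.mem_bot]
    exact h7 a b c
  exact h8

end Pool.Agent.Y744.LV
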