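import Pool.Agent.TH537.LV.B

/-!
# Rings equal to their derived Lie ring: the variety of the `2 × 2` matrices
-/

namespace Pool.Agent.Y744.LV

open Pool.Agent.TH537.LV

variable {R : Type*} [NonUnitalRing R]

/-- The multiplication by an integer as an additive map. -/
lemma ind_ker (hR : AddSubgroup.closure {x : R | ∃ a b : R, x = a * b - b * a} = ⊤)
    (φ : R →+ R) (h : ∀ a b, φ (a * b - b * a) = 0) (x : R) : φ x = 0 := by
  have := ind hR ⊥ φ (fun a b => by rw [AddSubgroup.mem_bot]; exact h a b) x
  rwa [AddSubgroup.mem_bot] at this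

/-- Every element of a two-sided ideal that contains all `ab + ba`. -/
lemma anti_ideal (hR : AddSubgroup.closure {x : R | ∃ a b : R, x = a * b - b * a} = ⊤)
    (P : AddSubgroup R) (hl : ∀ a : R, ∀ x ∈ P, a * x ∈ P) (hr : ∀ a : R, ∀ x ∈ P, x * a ∈ P)
    (hs : ∀ a b : R, a * b + b * a ∈ P) (x : R) : x ∈ P := by
  have h2 : ∀ x : R, (2 : ℤ) • x ∈ P := by
    intro x
    have h3 : x ∈ P.comap (zsmulAddGroupHom (2 : ℤ) : R →+ R) := by
      apply ind_three hR
      intro a b c
      change (2 : ℤ) • (a * b * c) ∈ P
      have e : (2 : ℤ) • (a * b * c) = (a * b + b * a) * c - b * (a * c + c * a)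
          + ((b * c) * a + a * (b * c)) := by
        simp only [mul_add, add_mul, mul_assoc, two_smul]
        abel
      rw [e]
      exact add_mem (sub_mem (hr _ _ (hs _ _)) (hl _ _ (hs _ _))) (hs _ _)
    exact h3
  apply ind_id hR
  intro a b
  have e : a * b - b * a = (2 : ℤ) • (a * b) - (a * b + b * a) := by
    rw [two_smul]; abel
  rw [e]
  exact sub_mem (h2 _) (hs _ _)

/-- A ring `R = [R,R]` in which all `[x,y] ∘ [u,v]` are central is zero. -/
theorem zero_of_hall (hR : AddSubgroup.closure {x : R | ∃ a b : R, x = a * b - b * a} = ⊤)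
    (h : ∀ x y u v w : R,
      ((x * y - y * x) * (u * v - v * u) + (u * v - v * u) * (x * y - y * x)) * w
        = w * ((x * y - y * x) * (u * v - v * u) + (u * v - v * u) * (x * y - y * x)))
    (x : R) : x = 0 := by
  have h1 : ∀ a u v w : R, (a * (u * v - v * u) + (u * v - v * u) * a) * w
      = w * (a * (u * v - v * u) + (u * v - v * u) * a) := by
    intro a u v w
    rw [← sub_eq_zero]
    refine ind_ker hR (AddMonoidHom.mk' (fun a => (a * (u * v - v * u) + (u * v - v * u) * a) * w
      - w * (a * (u * v - v * u) + (u * v - v * u) * a))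
      (by intro p q; simp only [mul_add, add_mul, mul_sub, sub_mul]; abel)) ?_ a
    intro x y
    exact sub_eq_zero.2 (h x y u v w)
  have hc : ∀ a b w : R, (a * b + b * a) * w = w * (a * b + b * a) := by
    intro a b w
    rw [← sub_eq_zero]
    refine ind_ker hR (AddMonoidHom.mk' (fun b => (a * b + b * a) * w
      - w * (a * b + b * a))
      (by intro p q; simp only [mul_add, add_mul, mul_sub, sub_mul]; abel)) ?_ b
    intro u v
    exact sub_eq_zero.2 (h1 a u v w)
  have hz : ∀ a b w : R, (2 : ℤ) • ((a * b + b * a) * w) = 0 := by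
    intro a b w
    refine ind_ker hR (AddMonoidHom.mk' (fun w => (2 : ℤ) • ((a * b + b * a) * w))
      (by intro p q; simp only [mul_add, smul_add])) ?_ w
    intro c d
    change (2 : ℤ) • ((a * b + b * a) * (c * d - d * c)) = 0
    have e1 := hc (a * b + b * a) c d
    have e2 := hc a b c
    have e3 := hc a b d
    set z := a * b + b * a with hz
    rw [← e2] at e1
    -- `(z c + z c) d = d (z c + z c)`
    have e4 : d * (z * c) = z * (d * c) := by rw [← mul_assoc, ← e3, mul_assoc]
    have e5 : z * (c * d) + z * (c * d) = z * (d * c) + z * (d * c) := by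
      rw [add_mul, mul_add, e4, mul_assoc] at e1
      exact e1
    rw [mul_sub, two_smul]
    rw [← sub_eq_zero] at e5
    rw [← e5]; abel
  have h2a : ∀ x w : R, (2 : ℤ) • (x * w) = 0 := by
    intro x
    let P : AddSubgroup R :=
      { carrier := {a | ∀ w : R, (2 : ℤ) • (a * w) = 0}
        zero_mem' := by intro w; simp
        add_mem' := by
          intro a b ha hb w
          rw [add_mul, smul_add, ha w, hb w, add_zero]
        neg_mem' := by
          intro a ha w
          rw [neg_mul, smul_neg, ha w, neg_zero] }
    have hx : x ∈ P := by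
      apply anti_ideal hR P
      · intro u x hx w
        rw [mul_assoc, ← mul_smul_comm, hx w, mul_zero]
      · intro u x hx w
        rw [mul_assoc]
        exact hx _
      · intro a b w
        exact hz a b w
    exact hx
  have h2 : ∀ x : R, (2 : ℤ) • x = 0 := by
    intro x
    refine ind_ker hR (zsmulAddGroupHom (2 : ℤ) : R →+ R) ?_ x
    intro a b
    change (2 : ℤ) • (a * b - b * a) = 0
    rw [smul_sub, h2a, h2a, sub_zero]
  have hcen : ∀ x w : R, x * w = w * x := by
    intro x w
    rw [← sub_eq_zero]
    refine ind_ker hR (AddMonoidHom.mk' (fun x => x * w - w * x)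
      (by intro p q; simp only [mul_add, add_mul]; abel)) ?_ x
    intro a b
    have e : a * b - b * a = a * b + b * a := by
      have := h2 (b * a)
      rw [two_smul] at this
      rw [sub_eq_iff_eq_add, add_assoc, this, add_zero]
    change (a * b - b * a) * w - w * (a * b - b * a) = 0
    rw [e, hc, sub_self]
  refine ind_ker hR (AddMonoidHom.id R) ?_ x
  intro a b
  change a * b - b * a = 0
  rw [hcen a b, sub_self]

/-- The Hall identity of the `2 × 2` matrices over a commutative ring. -/
lemma hall_matrix {C : Type*} [CommRing C] (x y u v w : Matrix (Fin 2) (Fin 2) C) :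
    ((x * y - y * x) * (u * v - v * u) + (u * v - v * u) * (x * y - y * x)) * w
        = w * ((x * y - y * x) * (u * v - v * u) + (u * v - v * u) * (x * y - y * x)) := by
  have key : ∀ a b : Matrix (Fin 2) (Fin 2) C, a 0 0 + a 1 1 = 0 → b 0 0 + b 1 1 = 0 →
      (a * b + b * a) * w = w * (a * b + b * a) := by
    intro a b ha hb
    have ha' : a 1 1 = - a 0 0 := by linear_combination ha
    have hb' : b 1 1 = - b 0 0 := by linear_combination hb
    ext i j
    fin_cases i <;> fin_cases j <;>
      simp only [Matrix.mul_apply, Fin.sum_univ_two, Matrix.add_apply, Fin.zero_eta, Fin.mk_one,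
        ha', hb'] <;> ring
  apply key
  · simp only [Matrix.sub_apply, Matrix.mul_apply, Fin.sum_univ_two]; ring
  · simp only [Matrix.sub_apply, Matrix.mul_apply, Fin.sum_univ_two]; ring

end Pool.Agent.Y744.LV
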