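import Mathlib

/-!
# Rings of matrices equal to their derived Lie ring: all characteristic polynomials are `Xⁿ`
-/

namespace Pool.Agent.Y744.LV

open Polynomial

universe u

variable {n : ℕ}

/-- A set of matrices closed under addition and multiplication which is the additive span of its
commutators. -/
def Good {C : Type u} [CommRing C] (S : AddSubgroup (Matrix (Fin n) (Fin n) C)) : Prop :=
  (∀ a ∈ S, ∀ b ∈ S, a * b ∈ S) ∧
  (∀ x ∈ S, x ∈ AddSubgroup.closure {z | ∃ a ∈ S, ∃ b ∈ S, z = a * b - b * a})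

/-- The map `s ↦ Xⁱ s`. -/
noncomputable def lft {C : Type u} [CommRing C] (i : ℕ) :
    Matrix (Fin n) (Fin n) C →+ Matrix (Fin n) (Fin n) C[X] :=
  AddMonoidHom.mk' (fun s => (X ^ i : C[X]) • s.map Polynomial.C) (by
    intro a b
    rw [Matrix.map_add _ (fun a b => Polynomial.C_add), smul_add])

lemma lft_mul {C : Type u} [CommRing C] (i j : ℕ) (a b : Matrix (Fin n) (Fin n) C) :
    lft i a * lft j b = lft (i + j) (a * b) := by
  change ((X ^ i : C[X]) • a.map Polynomial.C) * ((X ^ j : C[X]) • b.map Polynomial.C)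
    = (X ^ (i + j) : C[X]) • (a * b).map Polynomial.C
  rw [Matrix.map_mul, Matrix.smul_mul, Matrix.mul_smul, smul_smul, ← pow_add]

/-- The polynomials with coefficients in `S`. -/
noncomputable def pol {C : Type u} [CommRing C] (S : AddSubgroup (Matrix (Fin n) (Fin n) C)) :
    AddSubgroup (Matrix (Fin n) (Fin n) C[X]) :=
  AddSubgroup.closure {z | ∃ i : ℕ, ∃ s ∈ S, z = lft i s}

lemma lft_mem {C : Type u} [CommRing C] {S : AddSubgroup (Matrix (Fin n) (Fin n) C)} (i : ℕ)
    {s : Matrix (Fin n) (Fin n) C} (hs : s ∈ S) : lft i s ∈ pol S :=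
  AddSubgroup.subset_closure ⟨i, s, hs, rfl⟩

lemma good_pol {C : Type u} [CommRing C] {S : AddSubgroup (Matrix (Fin n) (Fin n) C)}
    (h : Good S) : Good (pol S) := by
  constructor
  · intro a ha b hb
    refine AddSubgroup.closure_induction (p := fun a _ => a * b ∈ pol S) ?_ ?_ ?_ ?_ ha
    · rintro _ ⟨i, s, hs, rfl⟩
      refine AddSubgroup.closure_induction (p := fun b _ => lft i s * b ∈ pol S) ?_ ?_ ?_ ?_ hb
      · rintro _ ⟨j, s', hs', rfl⟩
        rw [lft_mul]
        exact lft_mem _ (h.1 _ hs _ hs')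
      · rw [mul_zero]; exact zero_mem _
      · intro x y _ _ hx hy
        rw [mul_add]; exact add_mem hx hy
      · intro x _ hx
        rw [mul_neg]; exact neg_mem hx
    · rw [zero_mul]; exact zero_mem _
    · intro x y _ _ hx hy
      rw [add_mul]; exact add_mem hx hy
    · intro x _ hx
      rw [neg_mul]; exact neg_mem hx
  · intro x hx
    refine (AddSubgroup.closure_le _).2 ?_ hx
    rintro _ ⟨i, s, hs, rfl⟩
    have h1 := h.2 s hs
    have h2 : AddSubgroup.closure {z | ∃ a ∈ S, ∃ b ∈ S, z = a * b - b * a} ≤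
        (AddSubgroup.closure {z | ∃ a ∈ pol S, ∃ b ∈ pol S, z = a * b - b * a}).comap
          (lft i) := by
      rw [AddSubgroup.closure_le]
      rintro _ ⟨a, ha, b, hb, rfl⟩
      change lft i (a * b - b * a) ∈ AddSubgroup.closure
        {z | ∃ a ∈ pol S, ∃ b ∈ pol S, z = a * b - b * a}
      refine AddSubgroup.subset_closure ⟨lft i a, lft_mem i ha, lft 0 b, lft_mem 0 hb, ?_⟩
      rw [lft_mul, lft_mul, map_sub, add_zero, zero_add]
    exact h2 h1

/-- Multiplicativity modulo `t^(k+1)`. -/
lemma step_mul (k : ℕ) (hk : 1 ≤ k)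
    (ih : ∀ (C : Type u) [CommRing C] (S : AddSubgroup (Matrix (Fin n) (Fin n) C)), Good S →
      ∀ x ∈ S, (X ^ k : C[X]) ∣ x.charpolyRev - 1)
    {C : Type u} [CommRing C] (S : AddSubgroup (Matrix (Fin n) (Fin n) C)) (h : Good S)
    {Q : Type u} [CommRing Q] (q : C[X] →+* Q) (hq : q X ^ (k + 1) = 0)
    (x y : Matrix (Fin n) (Fin n) C) (hx : x ∈ S) (hy : y ∈ S) :
    q (x + y).charpolyRev = q x.charpolyRev * q y.charpolyRev := by
  set t := q X with ht
  have hrev : ∀ z : Matrix (Fin n) (Fin n) C, q z.charpolyRev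
      = (1 - t • z.map (fun c => q (Polynomial.C c))).det := by
    intro z
    rw [Matrix.charpolyRev, RingHom.map_det]
    congr 1
    ext i j
    simp [Matrix.sub_apply, Matrix.one_apply, apply_ite q]
    rw [← ht, mul_comm]
  set xb : Matrix (Fin n) (Fin n) Q := x.map (fun c => q (Polynomial.C c)) with hxb
  set yb : Matrix (Fin n) (Fin n) Q := y.map (fun c => q (Polynomial.C c)) with hyb
  have hxy : (x + y).map (fun c => q (Polynomial.C c)) = xb + yb := by
    ext i j; simp [hxb, hyb]
  set a : Matrix (Fin n) (Fin n) Q := t • xb with ha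
  set b : Matrix (Fin n) (Fin n) Q := t • yb with hb
  have hak : a ^ (k + 1) = 0 := by rw [ha, _root_.smul_pow, hq, zero_smul]
  have hbk : b ^ (k + 1) = 0 := by rw [hb, _root_.smul_pow, hq, zero_smul]
  set a' := ∑ i ∈ Finset.range (k + 1), a ^ i with ha'
  set b' := ∑ i ∈ Finset.range (k + 1), b ^ i with hb'
  have e1 : (1 - a) * a' = 1 := by rw [ha', mul_neg_geom_sum, hak, sub_zero]
  have e2 : b' * (1 - b) = 1 := by rw [hb', geom_sum_mul_neg, hbk, sub_zero]
  have e3 : 1 - (a + b) = (1 - a) * (1 - a' * (a * b) * b') * (1 - b) := by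
    have : (1 - a) * (1 - a' * (a * b) * b') * (1 - b)
        = (1 - a) * (1 - b) - ((1 - a) * a') * (a * b) * (b' * (1 - b)) := by
      noncomm_ring
    rw [this, e1, e2]
    noncomm_ring
  -- the correction term
  let W : Matrix (Fin n) (Fin n) C[X] := ∑ i ∈ Finset.range (k + 1), ∑ j ∈ Finset.range (k + 1),
    lft (i + j) (x ^ (i + 1) * y ^ (j + 1))
  have hpow : ∀ z ∈ S, ∀ i : ℕ, z ^ (i + 1) ∈ S := by
    intro z hz i
    induction i with
    | zero => simpa using hz
    | succ i IH => rw [pow_succ]; exact h.1 _ IH _ hz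
  have hW : W ∈ pol S := by
    refine sum_mem fun i _ => sum_mem fun j _ => lft_mem _ (h.1 _ (hpow x hx i) _ (hpow y hy j))
  have e4 : a' * (a * b) * b' = (t ^ 2) • W.map q := by
    have hWm : W.map q = ∑ i ∈ Finset.range (k + 1), ∑ j ∈ Finset.range (k + 1),
        (t ^ (i + j)) • (xb ^ (i + 1) * yb ^ (j + 1)) := by
      have hm : ∀ (i : ℕ) (z : Matrix (Fin n) (Fin n) C), (lft i z).map q
          = t ^ i • z.map (fun c => q (Polynomial.C c)) := by
        intro i z
        ext r s
        simp [lft, ht]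
        exact mul_comm _ _
      have hmul : ∀ z w : Matrix (Fin n) (Fin n) C, (z * w).map (fun c => q (Polynomial.C c))
          = z.map (fun c => q (Polynomial.C c)) * w.map (fun c => q (Polynomial.C c)) := by
        intro z w
        exact Matrix.map_mul (f := q.comp Polynomial.C)
      have hpw : ∀ (z : Matrix (Fin n) (Fin n) C) (i : ℕ),
          (z ^ (i + 1)).map (fun c => q (Polynomial.C c))
          = (z.map (fun c => q (Polynomial.C c))) ^ (i + 1) := by
        intro z i
        induction i with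
        | zero => simp
        | succ i IH => rw [pow_succ, hmul, IH, ← pow_succ]
      have : W.map q = (q.mapMatrix : Matrix (Fin n) (Fin n) C[X] →+* _) W := rfl
      rw [this, map_sum]
      refine Finset.sum_congr rfl fun i _ => ?_
      rw [map_sum]
      refine Finset.sum_congr rfl fun j _ => ?_
      change (lft (i + j) (x ^ (i + 1) * y ^ (j + 1))).map q = _
      rw [hm, hmul, hpw, hpw]
    rw [hWm, ha', hb', Finset.sum_mul, Finset.sum_mul, Finset.smul_sum]
    refine Finset.sum_congr rfl fun i _ => ?_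
    rw [Finset.mul_sum, Finset.smul_sum]
    refine Finset.sum_congr rfl fun j _ => ?_
    have : a ^ i * (a * b) * b ^ j = a ^ (i + 1) * b ^ (j + 1) := by
      rw [pow_succ, pow_succ']; simp only [mul_assoc]
    rw [this, ha, hb, _root_.smul_pow, _root_.smul_pow, Matrix.smul_mul, Matrix.mul_smul, smul_smul, smul_smul]
    congr 1
    ring
  have e5 : (1 - (t ^ 2) • W.map q).det = 1 := by
    have h1 := ih C[X] (pol S) (good_pol h) W hW
    obtain ⟨r, hr⟩ := h1
    let ev : C[X][X] →+* Q := Polynomial.eval₂RingHom q (t ^ 2)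
    have h2 : ev W.charpolyRev = (1 - (t ^ 2) • W.map q).det := by
      rw [Matrix.charpolyRev, RingHom.map_det]
      congr 1
      ext i j
      simp [ev, Matrix.sub_apply, Matrix.one_apply, apply_ite]
      exact mul_comm _ _
    have h3 := congrArg ev hr
    rw [map_sub, map_one, h2, map_mul, map_pow] at h3
    have h4 : ev X = t ^ 2 := by simp [ev]
    have h5 : (t ^ 2) ^ k = 0 := by
      rw [← pow_mul]
      have : 2 * k = (k + 1) + (k - 1) := by omega
      rw [this, pow_add, hq, zero_mul]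
    rw [h4, h5, zero_mul] at h3
    exact sub_eq_zero.1 h3
  rw [hrev, hrev, hrev, hxy, smul_add]
  change (1 - (a + b)).det = (1 - a).det * (1 - b).det
  rw [e3, Matrix.det_mul, Matrix.det_mul, e4, e5, mul_one]

/-- All the reversed characteristic polynomials are congruent to `1` modulo all powers of `X`. -/
lemma rev_dvd (k : ℕ) : ∀ (C : Type u) [CommRing C] (S : AddSubgroup (Matrix (Fin n) (Fin n) C)),
    Good S → ∀ x ∈ S, (X ^ (k + 1) : C[X]) ∣ x.charpolyRev - 1 := by
  induction k with
  | zero =>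
    intro C _ S _ x _
    rw [zero_add, pow_one, X_dvd_iff, coeff_sub, coeff_zero_eq_eval_zero, Matrix.eval_charpolyRev]
    simp
  | succ k ih =>
    intro C _ S h x hx
    let I : Ideal C[X] := Ideal.span {X ^ (k + 1 + 1)}
    let q : C[X] →+* C[X] ⧸ I := Ideal.Quotient.mk I
    have hq : q X ^ (k + 1 + 1) = 0 := by
      rw [← map_pow]
      exact Ideal.Quotient.eq_zero_iff_mem.2 (Ideal.mem_span_singleton_self _)
    have hmul := step_mul (k + 1) (by omega) ih S h q hq
    have h0 : q (0 : Matrix (Fin n) (Fin n) C).charpolyRev = 1 := by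
      rw [Matrix.charpolyRev]; simp
    have hcomm : ∀ a b : Matrix (Fin n) (Fin n) C, (a * b).charpolyRev = (b * a).charpolyRev := by
      intro a b
      rw [← Matrix.reverse_charpoly, ← Matrix.reverse_charpoly, Matrix.charpoly_mul_comm]
    have key : x ∈ S ∧ q x.charpolyRev = 1 := by
      refine AddSubgroup.closure_induction
        (p := fun x _ => x ∈ S ∧ q x.charpolyRev = 1) ?_ ?_ ?_ ?_ (h.2 x hx)
      · rintro _ ⟨a, ha, b, hb, rfl⟩
        refine ⟨sub_mem (h.1 _ ha _ hb) (h.1 _ hb _ ha), ?_⟩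
        have e1 := hmul (a * b) (-(b * a)) (h.1 _ ha _ hb) (neg_mem (h.1 _ hb _ ha))
        have e2 := hmul (b * a) (-(b * a)) (h.1 _ hb _ ha) (neg_mem (h.1 _ hb _ ha))
        rw [add_neg_cancel, h0] at e2
        rw [sub_eq_add_neg, e1, hcomm a b, ← e2]
      · exact ⟨zero_mem _, h0⟩
      · intro a b _ _ ha hb
        exact ⟨add_mem ha.1 hb.1, by rw [hmul a b ha.1 hb.1, ha.2, hb.2, one_mul]⟩
      · intro a _ ha
        have e2 := hmul a (-a) ha.1 (neg_mem ha.1)
        rw [add_neg_cancel, h0, ha.2, one_mul] at e2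
        exact ⟨neg_mem ha.1, e2.symm⟩
    have h1 : q (x.charpolyRev - 1) = 0 := by rw [map_sub, key.2, map_one, sub_self]
    exact Ideal.mem_span_singleton.1 (Ideal.Quotient.eq_zero_iff_mem.1 h1)

theorem rev_eq_one {C : Type u} [CommRing C] {S : AddSubgroup (Matrix (Fin n) (Fin n) C)}
    (h : Good S) (x : Matrix (Fin n) (Fin n) C) (hx : x ∈ S) : x.charpolyRev = 1 := by
  rw [← sub_eq_zero]
  ext d
  exact (X_pow_dvd_iff.1 (rev_dvd d C S h x hx)) d (Nat.lt_succ_self d)

theorem charpoly_eq {C : Type u} [CommRing C] {S : AddSubgroup (Matrix (Fin n) (Fin n) C)}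
    (h : Good S) (x : Matrix (Fin n) (Fin n) C) (hx : x ∈ S) : x.charpoly = X ^ n := by
  rcases subsingleton_or_nontrivial C with hC | hC
  · exact Subsingleton.elim _ _
  have h1 : x.charpoly.reverse = 1 := by rw [Matrix.reverse_charpoly, rev_eq_one h x hx]
  have h2 : reflect x.charpoly.natDegree x.charpoly.reverse = x.charpoly := by
    rw [Polynomial.reverse, reflect_reflect]
  rw [h1, Matrix.charpoly_natDegree_eq_dim, Fintype.card_fin] at h2
  rw [← h2, ← Polynomial.C_1, reflect_C]
  simp

theorem pow_eq_zero_of_good {C : Type u} [CommRing C]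
    {S : AddSubgroup (Matrix (Fin n) (Fin n) C)}
    (h : Good S) (x : Matrix (Fin n) (Fin n) C) (hx : x ∈ S) : x ^ n = 0 := by
  have := Matrix.aeval_self_charpoly x
  rwa [charpoly_eq h x hx, map_pow, aeval_X] at this

end Pool.Agent.Y744.LV
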