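import Pool.Agent.TH537.LV.C
import Pool.Agent.Y744.LV.Hall

/-!
# Rings equal to their derived Lie ring: alternating triple derivations
-/

namespace Pool.Agent.Y744.LV

open Pool.Agent.TH537.LV

variable {R : Type*} [NonUnitalRing R]

/-- In a ring `R = [R,R]`: an alternating triadditive map which is a derivation in the first
variable has values that annihilate `R` (from the left). -/
theorem tri (hR : AddSubgroup.closure {x : R | ∃ a b : R, x = a * b - b * a} = ⊤)
    (D : R → R → R → R)
    (hadd : ∀ x x' z y, D (x + x') z y = D x z y + D x' z y)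
    (hder : ∀ x x' z y, D (x * x') z y = x * D x' z y + D x z y * x')
    (hxz : ∀ x z y, D x z y = - D z x y) (hzy : ∀ x z y, D x z y = - D x y z)
    (hyy : ∀ x y, D y x y = 0) :
    (∀ x z y v, D x z y * v = 0) ∧ (∀ x z y v, v * D x z y = 0) := by
  have haddz : ∀ x z z' y, D x (z + z') y = D x z y + D x z' y := by
    intro x z z' y
    rw [hxz, hadd, hxz z, hxz z']; abel
  have haddy : ∀ x z y y', D x z (y + y') = D x z y + D x z y' := by
    intro x z y y'
    rw [hzy, haddz, hzy x y, hzy x y']; abel
  have hderz : ∀ x z z' y, D x (z * z') y = z * D x z' y + D x z y * z' := by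
    intro x z z' y
    rw [hxz, hder, hxz z, hxz z']
    simp only [mul_neg, neg_mul]; abel
  have c1 : ∀ x z x' z' y, (x * z - z * x) * D x' z' y = D x z y * (x' * z' - z' * x') := by
    intro x z x' z' y
    have e1 : D (x * x') (z * z') y = x * (z * D x' z' y + D x' z y * z')
        + (z * D x z' y + D x z y * z') * x' := by
      rw [hder, hderz, hderz]
    have e2 : D (x * x') (z * z') y = z * (x * D x' z' y + D x z' y * x')
        + (x * D x' z y + D x z y * x') * z' := by
      rw [hderz, hder, hder]
    rw [e1] at e2
    rw [← sub_eq_zero] at e2 ⊢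
    rw [← e2]
    simp only [mul_add, add_mul, mul_sub, sub_mul, mul_assoc]
    abel
  have c1r : ∀ x z r x' z' y, (x * z - z * x) * r * D x' z' y
      = D x z y * r * (x' * z' - z' * x') := by
    intro x z r x' z' y
    have e1 := c1 x z (r * x') z' y
    have e2 := c1 x z r z' y
    rw [hder] at e1
    have e3 : (x * z - z * x) * (r * D x' z' y) + (x * z - z * x) * D r z' y * x'
        = D x z y * (r * x' * z' - z' * (r * x')) := by
      rw [← e1]; simp only [mul_add, mul_assoc]
    rw [e2] at e3
    rw [← sub_eq_zero] at e3 ⊢
    rw [← e3]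
    simp only [mul_add, add_mul, mul_sub, sub_mul, mul_assoc]
    abel
  -- alternating in `y` and the first argument of the commutator
  have c2 : ∀ x z y z', D x z y * (y * z' - z' * y) = 0 := by
    intro x z y z'
    rw [← c1 x z y z' y, hyy z' y, mul_zero]
  have c2r : ∀ x z y r z', D x z y * r * (y * z' - z' * y) = 0 := by
    intro x z y r z'
    rw [← c1r x z r y z' y, hyy z' y, mul_zero]
  have a1 : ∀ x z y p q, D x z y * (p * q - q * p) = - (D x z p * (y * q - q * y)) := by
    intro x z y p q
    have h := c2 x z (y + p) q
    have h1 := c2 x z y q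
    have h2 := c2 x z p q
    have e : D x z (y + p) * ((y + p) * q - q * (y + p)) = D x z y * (y * q - q * y)
        + D x z p * (p * q - q * p) + (D x z y * (p * q - q * p) + D x z p * (y * q - q * y)) := by
      rw [haddy]
      simp only [mul_add, add_mul, mul_sub]; abel
    rw [e, h1, h2, zero_add, zero_add] at h
    exact eq_neg_of_add_eq_zero_left h
  have a2 : ∀ x z y r p q, D x z y * r * (p * q - q * p) = - (D x z p * r * (y * q - q * y)) := by
    intro x z y r p q
    have h := c2r x z (y + p) r q
    have h1 := c2r x z y r q
    have h2 := c2r x z p r q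
    have e : D x z (y + p) * r * ((y + p) * q - q * (y + p)) = D x z y * r * (y * q - q * y)
        + D x z p * r * (p * q - q * p)
        + (D x z y * r * (p * q - q * p) + D x z p * r * (y * q - q * y)) := by
      rw [haddy]
      simp only [mul_add, add_mul, mul_sub]; abel
    rw [e, h1, h2, zero_add, zero_add] at h
    exact eq_neg_of_add_eq_zero_left h
  -- swap of the first arguments of the two commutators
  have s1 : ∀ x z y p q p' q', D x z y * (p * q - q * p) * (p' * q' - q' * p')
      = - (D x z y * (p' * q - q * p') * (p * q' - q' * p)) := by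
    intro x z y p q p' q'
    rw [a1 x z y p q, neg_mul, a2 x z p (y * q - q * y) p' q', neg_neg, a1 x z p' y q, neg_mul]
  have neg_br : ∀ p q : R, p * q - q * p = - (q * p - p * q) := by intro p q; abel
  have s2 : ∀ x z y p q p' q', D x z y * (p * q - q * p) * (p' * q' - q' * p')
      = - (D x z y * (p * q' - q' * p) * (p' * q - q * p')) := by
    intro x z y p q p' q'
    have h := s1 x z y q p q' p'
    rw [neg_br p q, neg_br p' q', neg_br p q', neg_br p' q]
    simp only [mul_neg, neg_mul, neg_neg]
    exact h
  have s3 : ∀ x z y p q p' q', D x z y * (p * q - q * p) * (p' * q' - q' * p')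
      = D x z y * (p' * q' - q' * p') * (p * q - q * p) := by
    intro x z y p q p' q'
    rw [s1, s2 x z y p' q p q', neg_neg]
  have s4 : ∀ x z y v v', D x z y * v * v' = D x z y * v' * v := by
    intro x z y v v'
    rw [← sub_eq_zero]
    refine ind_ker hR (AddMonoidHom.mk' (fun v => D x z y * v * v' - D x z y * v' * v)
      (by intro p q; simp only [mul_add, add_mul]; abel)) ?_ v
    intro p q
    change D x z y * (p * q - q * p) * v' - D x z y * v' * (p * q - q * p) = 0
    refine ind_ker hR (AddMonoidHom.mk' (fun v' => D x z y * (p * q - q * p) * v'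
      - D x z y * v' * (p * q - q * p))
      (by intro p q; simp only [mul_add, add_mul]; abel)) ?_ v'
    intro p' q'
    exact sub_eq_zero.2 (s3 x z y p q p' q')
  have r1 : ∀ x z y v, D x z y * v = 0 := by
    intro x z y v
    refine ind_ker hR (AddMonoidHom.mk' (fun v => D x z y * v)
      (by intro p q; simp only [mul_add])) ?_ v
    intro p q
    change D x z y * (p * q - q * p) = 0
    rw [mul_sub, ← mul_assoc, ← mul_assoc, s4, sub_self]
  refine ⟨r1, ?_⟩
  intro x z y v
  refine ind_ker hR (AddMonoidHom.mk' (fun v => v * D x z y)
      (by intro p q; simp only [add_mul])) ?_ v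
  intro p q
  change (p * q - q * p) * D x z y = 0
  rw [c1, r1]

end Pool.Agent.Y744.LV
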