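import Pool.Agent.Y744.LV.Nil4a

/-!
# Rings of nil index four equal to their derived Lie ring
-/

namespace Pool.Agent.Y744.LV

open Pool.Agent.TH537.LV

variable {R : Type*} [NonUnitalRing R]

/-- The linearization of `x⁴`. -/
def ph (x y : R) : R := x * x * x * y + x * x * y * x + x * y * x * x + y * x * x * x

/-- The part of degree `(2,2)` of `(x+y)⁴`. -/
def f2 (x y : R) : R := x * x * y * y + x * y * x * y + x * y * y * x + y * x * x * y
  + y * x * y * x + y * y * x * x

lemma ph_add (x y z : R) : ph x (y + z) = ph x y + ph x z := by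
  simp only [ph, mul_add, add_mul]; abel

lemma ph_zsmul (x y : R) (k : ℤ) : ph x (k • y) = k • ph x y := by
  simp only [ph, mul_smul_comm, smul_mul_assoc, smul_add]

lemma ph_two_left (x y : R) : ph ((2 : ℤ) • x) y = (8 : ℤ) • ph x y := by
  simp only [ph, mul_smul_comm, smul_mul_assoc, smul_add, smul_smul]
  norm_num

lemma ph_comm_self (h : ∀ x : R, x * x * x * x = 0) (x y : R) : x * ph x y - ph x y * x = 0 := by
  have e : x * ph x y - ph x y * x = x * x * x * x * y - y * (x * x * x * x) := by
    simp only [ph, mul_add, add_mul, mul_assoc]; abel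
  rw [e, h]; simp

lemma ph_left (x y : R) : ph x (x * y) = x * ph x y := by
  simp only [ph, mul_add, mul_assoc]

section
variable (h : ∀ x : R, x * x * x * x = 0)
include h

lemma two_sum (x y : R) : (2 : ℤ) • (ph x y + ph y x) = 0 := by
  have e1 := h (x + y)
  have e2 := h (x - y)
  have e : (2 : ℤ) • (ph x y + ph y x) = (x + y) * (x + y) * (x + y) * (x + y)
      - (x - y) * (x - y) * (x - y) * (x - y) := by
    simp only [ph, mul_add, add_mul, mul_sub, sub_mul, mul_assoc, two_smul, smul_add]; abel
  rw [e, e1, e2, sub_zero]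

variable (h2 : ∀ x : R, ∃ y : R, x = (2 : ℤ) • y)
include h2

lemma three_ph (x y : R) : (3 : ℤ) • ph x y = 0 := by
  have key : ∀ x y : R, (12 : ℤ) • ph y x = 0 := by
    intro x y
    have e1 := two_sum h x y
    have e2 := two_sum h x ((2 : ℤ) • y)
    rw [ph_zsmul, ph_two_left] at e2
    rw [smul_add] at e1 e2
    rw [smul_smul, smul_smul] at e2
    have e3 : (12 : ℤ) • ph y x = ((2 * 2 : ℤ) • ph x y + (2 * 8 : ℤ) • ph y x)
        - (2 : ℤ) • ((2 : ℤ) • ph x y + (2 : ℤ) • ph y x) := by
      rw [smul_add, smul_smul, smul_smul]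
      have : ((2 * 8 : ℤ) • ph y x) = (12 : ℤ) • ph y x + (4 : ℤ) • ph y x := by
        rw [← add_smul]; norm_num
      rw [this]; norm_num
    rw [e3, e1, e2]; simp
  obtain ⟨y', rfl⟩ := h2 y
  obtain ⟨y'', rfl⟩ := h2 y'
  have := key y'' x
  rw [ph_zsmul, ph_zsmul, smul_smul, smul_smul]
  exact this

lemma ph_anti (x y : R) : ph x y = - ph y x := by
  obtain ⟨y', rfl⟩ := h2 y
  have e1 := two_sum h x y'
  have e3 := three_ph h h2 y' x
  rw [ph_zsmul, ph_two_left]
  rw [smul_add] at e1
  rw [eq_neg_iff_add_eq_zero]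
  have : (8 : ℤ) • ph y' x = (2 : ℤ) • ph y' x + (2 : ℤ) • ((3 : ℤ) • ph y' x) := by
    rw [smul_smul, ← add_smul]; norm_num
  rw [this, e3, smul_zero, add_zero, e1]

lemma ph_add_left (x x' y : R) : ph (x + x') y = ph x y + ph x' y := by
  rw [ph_anti h h2, ph_add, ph_anti h h2 x, ph_anti h h2 x']; abel

lemma ph_self (x : R) : ph x x = 0 := by
  have : ph x x = x * x * x * x + x * x * x * x + x * x * x * x + x * x * x * x := rfl
  rw [this, h]; simp

/-- The alternating triple derivation. -/
lemma ps_swap (x z y : R) : x * ph z y - ph z y * x = - (z * ph x y - ph x y * z) := by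
  have e1 := ph_comm_self h (x + z) y
  have e2 := ph_comm_self h x y
  have e3 := ph_comm_self h z y
  rw [ph_add_left h h2] at e1
  rw [eq_neg_iff_add_eq_zero]
  have e : x * ph z y - ph z y * x + (z * ph x y - ph x y * z)
      = ((x + z) * (ph x y + ph z y) - (ph x y + ph z y) * (x + z))
        - (x * ph x y - ph x y * x) - (z * ph z y - ph z y * z) := by
    simp only [mul_add, add_mul]; abel
  rw [e, e1, e2, e3]; simp

variable (hR : AddSubgroup.closure {x : R | ∃ a b : R, x = a * b - b * a} = ⊤)
include hR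

lemma ps_ann : (∀ x z y v : R, (x * ph z y - ph z y * x) * v = 0) ∧
    (∀ x z y v : R, v * (x * ph z y - ph z y * x) = 0) := by
  apply tri hR (fun x z y => x * ph z y - ph z y * x)
  · intro x x' z y
    simp only [add_mul, mul_add]; abel
  · intro x x' z y
    simp only [mul_sub, sub_mul, mul_assoc]; abel
  · intro x z y
    exact ps_swap h h2 x z y
  · intro x z y
    change x * ph z y - ph z y * x = - (x * ph y z - ph y z * x)
    rw [ph_anti h h2 z y]
    simp only [mul_neg, neg_mul]; abel
  · intro x y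
    change y * ph x y - ph x y * y = 0
    rw [ph_anti h h2 x y, mul_neg, neg_mul]
    have := ph_comm_self h y x
    rw [sub_neg_eq_add, ← sub_eq_zero.1 this]; abel

/-- `[w,x] φ(x,y)` annihilates the ring. -/
lemma br_ph (w x y : R) : (∀ v, (w * x - x * w) * ph x y * v = 0) ∧
    (∀ v, v * ((w * x - x * w) * ph x y) = 0) := by
  obtain ⟨hr, hl⟩ := ps_ann h h2 hR
  have e : (w * x - x * w) * ph x y = (w * ph x (x * y) - ph x (x * y) * w)
      - x * (w * ph x y - ph x y * w) := by
    rw [ph_left]
    simp only [mul_sub, sub_mul, mul_assoc]; abel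
  rw [e, hl]
  exact ⟨fun v => by rw [sub_zero]; exact hr _ _ _ _, fun v => by rw [sub_zero]; exact hl _ _ _ _⟩

lemma ph_ann : (∀ x y v : R, v * ph x y = 0) ∧ (∀ x y v : R, ph x y * v = 0) := by
  obtain ⟨hr, hl⟩ := ps_ann h h2 hR
  have hcm : ∀ u v x y : R, u * (v * ph x y) = u * (ph x y * v) := by
    intro u v x y
    rw [← sub_eq_zero, ← mul_sub]
    exact hl v x y u
  -- alternation, with a factor on the left
  have b1 : ∀ u w x p y : R, u * ((w * x - x * w) * ph p y) = - (u * ((w * p - p * w) * ph x y)) := by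
    intro u w x p y
    have e0 := (br_ph h h2 hR w (x + p) y).2 u
    have e1 := (br_ph h h2 hR w x y).2 u
    have e2 := (br_ph h h2 hR w p y).2 u
    rw [eq_neg_iff_add_eq_zero]
    have e : u * ((w * x - x * w) * ph p y) + u * ((w * p - p * w) * ph x y)
        = u * ((w * (x + p) - (x + p) * w) * ph (x + p) y) - u * ((w * x - x * w) * ph x y)
          - u * ((w * p - p * w) * ph p y) := by
      rw [ph_add_left h h2]
      simp only [mul_add, add_mul, mul_sub, sub_mul, mul_assoc]; abel
    rw [e, e0, e1, e2]; simp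
  have b2 : ∀ w x p y v : R, (w * x - x * w) * ph p y * v = - ((w * p - p * w) * ph x y * v) := by
    intro w x p y v
    have e0 := (br_ph h h2 hR w (x + p) y).1 v
    have e1 := (br_ph h h2 hR w x y).1 v
    have e2 := (br_ph h h2 hR w p y).1 v
    rw [eq_neg_iff_add_eq_zero]
    have e : (w * x - x * w) * ph p y * v + (w * p - p * w) * ph x y * v
        = (w * (x + p) - (x + p) * w) * ph (x + p) y * v - (w * x - x * w) * ph x y * v
          - (w * p - p * w) * ph p y * v := by
      rw [ph_add_left h h2]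
      simp only [mul_add, add_mul, mul_sub, sub_mul, mul_assoc]; abel
    rw [e, e0, e1, e2]; simp
  -- `H(w,x,w',x';p) = [w,x][w',x'] φ(p,y)`
  have b3 : ∀ w x w' x' p y : R, (w * x - x * w) * ((w' * x' - x' * w') * ph p y)
      = - ((w * p - p * w) * ((w' * x' - x' * w') * ph x y)) := by
    intro w x w' x' p y
    rw [hcm, hcm, ← mul_assoc, ← mul_assoc, b2]
  have b4 : ∀ w x w' x' p y : R, (w * x - x * w) * ((w' * x' - x' * w') * ph p y)
      = - ((w * x' - x' * w) * ((w' * x - x * w') * ph p y)) := by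
    intro w x w' x' p y
    rw [b3 w x w' x' p y, b1 (w * p - p * w) w' x' x y, neg_neg, b3 w p w' x x' y]
  have neg_br : ∀ p q : R, p * q - q * p = - (q * p - p * q) := by intro p q; abel
  have b5 : ∀ w x w' x' p y : R, (w * x - x * w) * ((w' * x' - x' * w') * ph p y)
      = - ((w' * x - x * w') * ((w * x' - x' * w) * ph p y)) := by
    intro w x w' x' p y
    have hb := b4 x w x' w' p y
    rw [neg_br w x, neg_br w' x', neg_br w' x, neg_br w x']
    simp only [mul_neg, neg_mul, neg_neg]
    exact hb
  have b6 : ∀ w x w' x' p y : R, (w * x - x * w) * ((w' * x' - x' * w') * ph p y)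
      = (w' * x' - x' * w') * ((w * x - x * w) * ph p y) := by
    intro w x w' x' p y
    rw [b4, b5 w x' w' x p y, neg_neg]
  have b7 : ∀ v v' p y : R, v * (v' * ph p y) = v' * (v * ph p y) := by
    intro v v' p y
    rw [← sub_eq_zero]
    refine ind_ker hR (AddMonoidHom.mk' (fun v => v * (v' * ph p y) - v' * (v * ph p y))
      (by intro p q; simp only [mul_add, add_mul]; abel)) ?_ v
    intro w x
    change (w * x - x * w) * (v' * ph p y) - v' * ((w * x - x * w) * ph p y) = 0
    refine ind_ker hR (AddMonoidHom.mk' (fun v' => (w * x - x * w) * (v' * ph p y)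
      - v' * ((w * x - x * w) * ph p y))
      (by intro p q; simp only [mul_add, add_mul]; abel)) ?_ v'
    intro w' x'
    exact sub_eq_zero.2 (b6 w x w' x' p y)
  have l1 : ∀ p y v : R, v * ph p y = 0 := by
    intro p y v
    refine ind_ker hR (AddMonoidHom.mk' (fun v => v * ph p y)
      (by intro p q; simp only [add_mul])) ?_ v
    intro a b
    change (a * b - b * a) * ph p y = 0
    rw [sub_mul, mul_assoc, mul_assoc, b7, sub_self]
  refine ⟨l1, ?_⟩
  intro p y v
  refine ind_ker hR (AddMonoidHom.mk' (fun v => ph p y * v)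
      (by intro p q; simp only [mul_add])) ?_ v
  intro a b
  change ph p y * (a * b - b * a) = 0
  have e1 : ∀ a b : R, ph p y * (a * b) = 0 := by
    intro a b
    have := hr a p y b
    rw [l1, zero_sub, neg_mul, neg_eq_zero, mul_assoc] at this
    exact this
  rw [mul_sub, e1, e1, sub_zero]

lemma cube_cube (x z y v : R) : x * x * x * z * (y * y * y) * v = 0 := by
  obtain ⟨hl, hr⟩ := ph_ann h h2 hR
  obtain ⟨z', rfl⟩ := h2 z
  obtain ⟨z'', rfl⟩ := h2 z'
  have e : x * x * x * ((2 : ℤ) • (2 : ℤ) • z'') * (y * y * y) * v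
      = ph x z'' * (y * y * y * v) + ph x (z'' * y) * (y * y * v) + ph x (z'' * y * y) * (y * v)
        + ph x (z'' * y * y * y) * v - (x * x * z'') * ph y x * v
        - (x * z'') * ph y (x * x) * v - z'' * ph y (x * x * x) * v := by
    simp only [ph, mul_smul_comm, smul_mul_assoc, mul_add, add_mul, mul_assoc, smul_smul]
    abel
  rw [e]
  simp only [hl, hr, zero_mul, mul_zero, add_zero, sub_zero]

end

end Pool.Agent.Y744.LV
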